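import Mathlib
import Pool.Agent.H890R2.Geo4.PD

set_option autoImplicit false

open CategoryTheory
open Pool.Agent.H890R2.Geo4

/-!
# The nonabelian group of order 21 has the 4-manifold geography of the trivial group

`G21` is the group with presentation `⟨x, y | y x y⁻¹ = x², y³⟩` (order 21). The definitions are in
`Pool.Agent.H890R2.Geo4.Grp` (`G21`, `rels`), `Pool.Agent.H890R2.Geo4.Grp2` (`HasPresentation`,
`IsDeficiency`) and `Pool.Agent.H890R2.Geo4.Loc` (`WeakDuality3`, the singular homology and
cohomology of `E/G` with local coefficients).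
-/

namespace Pool.Agent.Results.MP_9533c6_gt.OrderTwentyOne

universe u

/-- The `i`-th rational Betti number of a group. -/
noncomputable def betti (G : Type) [Group G] (i : ℕ) : ℕ :=
  Module.finrank ℚ (groupHomology (Rep.trivial ℚ G ℚ) i)

/-- `q` satisfies the two bounds known for the function `q_G(σ)`, the least Euler characteristic of
a closed oriented 4-manifold with fundamental group `G` and signature `σ`, when `H₄(G) = 0`:
`|σ| + 2 - 2 β₁(G) + 2 β₂(G) ≤ q(σ) ≤ |σ| + 2 - 2 def(G)`. -/
def KnownBounds (G : Type) [Group G] (q : ℤ → ℤ) : Prop :=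
  ∀ σ : ℤ, |σ| + 2 - 2 * betti G 1 + 2 * betti G 2 ≤ q σ ∧
    ∀ d : ℤ, IsDeficiency G d → q σ ≤ |σ| + 2 - 2 * d

/-- There is a finite group `G`, namely the nonabelian group of order 21, with a presentation on
two generators and two relators, such that:

(i) `G` is not the fundamental group of a Poincaré complex of formal dimension three: if `X = E/G`
for a covering action of `G` on a simply connected space `E`, then for no orientation character
`w : G → {±1}` are the groups `Hⁱ(X; B)` and `H₃₋ᵢ(X; B^w)` isomorphic for all local coefficient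
systems `B` and all `i`;

(ii) `G` is not a free product with a nontrivial free group;

(iii) `H₄(G; ℤ) = 0`;

(iv) `def(G) = β₁(G) = β₂(G) = 0`, so the known bounds `|σ| + 2 - 2 β₁ + 2 β₂ ≤ q_G(σ) ≤
|σ| + 2 - 2 def(G)` force `q_G(σ) = 2 + |σ|` for every `σ`. -/
theorem result :
    HasPresentation G21 2 2 ∧ Nat.card G21 = 21 ∧
    (∀ (X E : Type u) [TopologicalSpace X] [TopologicalSpace E] [SimplyConnectedSpace E]
      [MulAction G21 E] [ContinuousConstSMul G21 E] (p : E → X), IsQuotientCoveringMap p G21 →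
      ¬ WeakDuality3 G21 E) ∧
    (∀ (α : Type u) [Nonempty α] (H : Type u) [Group H],
      IsEmpty (G21 ≃* Monoid.Coprod (FreeGroup α) H)) ∧
    Limits.IsZero (groupHomology (Rep.trivial ℤ G21 ℤ) 4) ∧
    IsDeficiency G21 0 ∧ betti G21 1 = 0 ∧ betti G21 2 = 0 ∧
    ∀ q : ℤ → ℤ, KnownBounds G21 q → ∀ σ : ℤ, q σ = 2 + |σ| := by
  have hb1 : betti G21 1 = 0 := betti_zero G21 1
  have hb2 : betti G21 2 = 0 := betti_zero G21 2
  refine ⟨⟨rels, ⟨presEquiv⟩⟩, by rw [Nat.card_eq_fintype_card, G21.card_eq], ?_,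
    fun α _ H _ => not_freeProduct α H, H4_G21, isDeficiency_G21, hb1, hb2, ?_⟩
  · intro X E _ _ _ _ _ p hp
    have hfree : ∀ (g : G21) (x : E), g • x = x → g = 1 := by
      intro g x hgx
      obtain ⟨U, hU, h⟩ := hp.disjoint x
      exact h g ⟨x, ⟨x, mem_of_mem_nhds hU, hgx⟩, mem_of_mem_nhds hU⟩
    exact not_weakDuality3 hfree
  · intro q hq σ
    obtain ⟨h1, h2⟩ := hq σ
    have h3 := h2 0 isDeficiency_G21
    rw [hb1, hb2] at h1
    simp only [Nat.cast_zero, mul_zero, sub_zero, add_zero] at h1 h3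
    linarith

end Pool.Agent.Results.MP_9533c6_gt.OrderTwentyOne
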